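import Mathlib

/-! # Definable sets, finite satisfiability (helper file for MP_064793_lc) -/

namespace MP064793

open FirstOrder FirstOrder.Language Set

universe u v w

variable (L : FirstOrder.Language.{u, v}) {N : Type w} [L.Structure N]

/-- No `n`-tuple of `X` is shattered by `Y`. -/
def NShat {X Y : Type*} (R : X → Y → Prop) (n : ℕ) : Prop :=
  ∀ f : Fin n → X, ¬ ∀ η : Set (Fin n), ∃ y, ∀ t, (R (f t) y ↔ t ∈ η)

theorem NShat.mono {X Y : Type*} {R : X → Y → Prop} {m n : ℕ} (h : NShat R m) (hmn : m ≤ n) :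
    NShat R n := by
  intro f hf
  refine h (fun i => f (Fin.castLE hmn i)) ?_
  intro η
  obtain ⟨y, hy⟩ := hf (Fin.castLE hmn '' η)
  refine ⟨y, fun t => ?_⟩
  rw [hy]
  simp [Set.mem_image, Fin.castLE_inj]

variable {L}

/-- Substituting parameters. -/
theorem Definable.fiber {A : Set N} {α β : Type*} {s : Set ((α ⊕ β) → N)}
    (h : A.Definable L s) (b : β → N) (hb : ∀ i, b i ∈ A) :
    A.Definable L {x : α → N | Sum.elim x b ∈ s} := by
  rw [definable_iff_exists_formula_sum] at h ⊢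
  obtain ⟨φ, rfl⟩ := h
  refine ⟨φ.relabel (Sum.elim Sum.inl (Sum.elim Sum.inr (fun i => Sum.inl ⟨b i, hb i⟩))), ?_⟩
  ext x
  simp only [Set.mem_ofPred_eq, Formula.realize_relabel]
  refine iff_of_eq (congrArg _ ?_)
  funext z
  rcases z with a | a | i <;> rfl

/-- Substituting parameters on the left. -/
theorem Definable.fiberLeft {A : Set N} {α β : Type*} {s : Set ((α ⊕ β) → N)}
    (h : A.Definable L s) (a : α → N) (ha : ∀ i, a i ∈ A) :
    A.Definable L {y : β → N | Sum.elim a y ∈ s} := by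
  rw [definable_iff_exists_formula_sum] at h ⊢
  obtain ⟨φ, rfl⟩ := h
  refine ⟨φ.relabel (Sum.elim Sum.inl (Sum.elim (fun i => Sum.inl ⟨a i, ha i⟩) Sum.inr)), ?_⟩
  ext x
  simp only [Set.mem_ofPred_eq, Formula.realize_relabel]
  refine iff_of_eq (congrArg _ ?_)
  funext z
  rcases z with a | a | i <;> rfl

/-- Every set definable over `A ∪ range c` is a fibre over `c` of an `A`-definable set. -/
theorem Definable.unfiber {A : Set N} {α γ : Type*} (c : γ → N) {s : Set (α → N)}
    (h : (A ∪ range c).Definable L s) :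
    ∃ s' : Set ((α ⊕ γ) → N), A.Definable L s' ∧ ∀ x : α → N, x ∈ s ↔ Sum.elim x c ∈ s' := by
  classical
  rw [definable_iff_exists_formula_sum] at h
  obtain ⟨φ, rfl⟩ := h
  have hch : ∀ z : ↥(A ∪ range c), ∃ y : ↥A ⊕ γ, Sum.elim (fun a : ↥A => (a : N)) c y = z := by
    rintro ⟨z, hz | ⟨i, rfl⟩⟩
    · exact ⟨Sum.inl ⟨z, hz⟩, rfl⟩
    · exact ⟨Sum.inr i, rfl⟩
  choose g hg using hch
  refine ⟨{v | (φ.relabel (Sum.elim (fun z => Sum.elim Sum.inl (fun i => Sum.inr (Sum.inr i)) (g z))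
      (fun a => Sum.inr (Sum.inl a)) : _ → ↥A ⊕ (α ⊕ γ))).Realize (Sum.elim (↑) v)},
      definable_iff_exists_formula_sum.2 ⟨_, rfl⟩, ?_⟩
  intro x
  simp only [Set.mem_ofPred_eq, Formula.realize_relabel]
  refine iff_of_eq (congrArg _ ?_)
  funext z
  rcases z with z | a
  · have := hg z
    simp only [Function.comp_apply, Sum.elim_inl]
    rw [← this]
    rcases g z with a | i <;> rfl
  · rfl

variable (L)

/-- The tuple `x` has a type over `A` finitely satisfiable in `M`. -/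
def FS (M A : Set N) {β : Type*} (x : β → N) : Prop :=
  ∀ S : Set (β → N), A.Definable L S → x ∈ S → ∃ m ∈ S, ∀ i, m i ∈ M

variable {L}

theorem FS.of_mem {M A : Set N} {β : Type*} {x : β → N} (hx : ∀ i, x i ∈ M) : FS L M A x :=
  fun _ _ h => ⟨x, h, hx⟩

theorem FS.mono {M A B : Set N} {β : Type*} {x : β → N} (h : FS L M B x) (hAB : A ⊆ B) :
    FS L M A x :=
  fun S hS hx => h S (hS.mono hAB) hx

/-- Transitivity of finite satisfiability. -/
theorem FS.elim {M A B : Set N} {α β : Type*} {x : α → N} {y : β → N} (hMA : M ⊆ A)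
    (hAB : A ⊆ B) (hxB : ∀ i, x i ∈ B) (hx : FS L M A x) (hy : FS L M B y) :
    FS L M A (Sum.elim x y) := by
  intro S hS hxy
  obtain ⟨m', hm', hm'M⟩ := hy {y' | Sum.elim x y' ∈ S}
    (Definable.fiberLeft (hS.mono hAB) x hxB) hxy
  obtain ⟨m, hm, hmM⟩ := hx {x' | Sum.elim x' m' ∈ S}
    (Definable.fiber hS m' (fun i => hMA (hm'M i))) hm'
  refine ⟨Sum.elim m m', hm, ?_⟩
  rintro (i | i)
  · exact hmM i
  · exact hm'M i

/-- Reindexing. -/
theorem FS.comp {M A : Set N} {α β : Type*} {x : α → N} (hx : FS L M A x) (f : β → α) :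
    FS L M A (x ∘ f) := by
  intro S hS hxS
  obtain ⟨m, hm, hmM⟩ := hx ((fun g : α → N => g ∘ f) ⁻¹' S) (hS.preimage_comp f) hxS
  exact ⟨m ∘ f, hm, fun i => hmM _⟩

variable (L)

/-- Every nonempty `M`-definable set has a point in `M`. -/
def MPoints (M : Set N) : Prop :=
  ∀ (β : Type) [Finite β] (S : Set (β → N)), M.Definable L S → S.Nonempty →
    ∃ m ∈ S, ∀ i, m i ∈ M

/-- Compactness for families of `A`-definable sets (saturation for sets over `A`). -/
def SatOver (A : Set N) : Prop :=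
  ∀ (β : Type) [Finite β] (ι : Type w) (F : ι → Set (β → N)),
    (∀ i, A.Definable L (F i)) → (∀ s : Finset ι, (⋂ i ∈ s, F i).Nonempty) → (⋂ i, F i).Nonempty

/-- NIP for definable relations in `N`. -/
def NIPDef (N : Type w) [L.Structure N] : Prop :=
  ∀ (A : Set N) (α β : Type) [Finite α] [Finite β] (S : Set ((α ⊕ β) → N)), A.Definable L S →
    ∃ n, NShat (fun (x : α → N) (y : β → N) => Sum.elim x y ∈ S) n

end MP064793
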