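import Mathlib

/-! # A finite minimax dichotomy (helper file for MP_064793_lc) -/

namespace MP064793

open Finset

/-- Finite minimax with threshold `1/2`: either some probability weight on `J` gives weight
`≥ 1/2` to every row `{j | a i j}`, or some probability weight on `I` gives weight `≥ 1/2` to
the complement of every column. -/
theorem minimax_half {I J : Type*} [Fintype I] [Fintype J] [Nonempty I] [Nonempty J]
    (a : I → J → Prop) :
    (∃ w : J → ℝ, (∀ j, 0 ≤ w j) ∧ ∑ j, w j = 1 ∧
        ∀ i, (1 / 2 : ℝ) ≤ ∑ j, {j | a i j}.indicator w j) ∨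
    (∃ w : I → ℝ, (∀ i, 0 ≤ w i) ∧ ∑ i, w i = 1 ∧
        ∀ j, (1 / 2 : ℝ) ≤ ∑ i, {i | ¬ a i j}.indicator w i) := by
  classical
  let M : Matrix I J ℝ := fun i j => if a i j then 1 else -1
  by_cases h : ∃ w ∈ stdSimplex ℝ J, ∀ i, 0 ≤ (M.mulVecLin w) i
  · left
    obtain ⟨w, ⟨hw0, hw1⟩, hw⟩ := h
    refine ⟨w, hw0, hw1, ?_⟩
    intro i
    have h1 := hw i
    rw [Matrix.mulVecLin_apply, Matrix.mulVec, dotProduct] at h1
    have h2 : ∑ j, M i j * w j = 2 * (∑ j, {j | a i j}.indicator w j) - ∑ j, w j := by
      rw [Finset.mul_sum, ← Finset.sum_sub_distrib]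
      refine Finset.sum_congr rfl ?_
      intro j _
      by_cases hij : a i j
      · simp only [M, hij, if_true, Set.indicator, Set.mem_ofPred_eq]
        ring
      · simp only [M, hij, if_false, Set.indicator, Set.mem_ofPred_eq]
        ring
    rw [h2, hw1] at h1
    linarith
  · right
    set K : Set (I → ℝ) := M.mulVecLin '' stdSimplex ℝ J with hK
    have hKc : Convex ℝ K := (convex_stdSimplex ℝ J).linear_image _
    have hKk : IsCompact K :=
      (isCompact_stdSimplex ℝ J).image M.mulVecLin.continuous_of_finiteDimensional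
    have hdisj : Disjoint K (Set.Ici (0 : I → ℝ)) := by
      rw [Set.disjoint_left]
      rintro _ ⟨w, hw, rfl⟩ h2
      exact h ⟨w, hw, fun i => h2 i⟩
    obtain ⟨f, u, v, hf1, huv, hf2⟩ := geometric_hahn_banach_compact_closed hKc hKk
      (convex_Ici (0 : I → ℝ)) isClosed_Ici hdisj
    have hv0 : v < 0 := by
      have := hf2 0 (Set.mem_Ici.2 le_rfl)
      simpa using this
    -- the coefficients
    let c : I → ℝ := fun i => f (Pi.single i 1)
    have hc0 : ∀ i, 0 ≤ c i := by
      intro i
      by_contra hneg
      push Not at hneg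
      have h1 := hf2 ((v / c i) • Pi.single i 1) (by
        rw [Set.mem_Ici]
        refine smul_nonneg (div_nonneg_of_nonpos hv0.le hneg.le) ?_
        intro k
        rw [Pi.zero_apply]
        by_cases hk : k = i
        · subst hk; simp
        · simp [hk])
      rw [map_smul, smul_eq_mul] at h1
      have h2 : v / c i * f (Pi.single i 1) = v := div_mul_cancel₀ v hneg.ne
      rw [h2] at h1
      exact lt_irrefl _ h1
    have hf : ∀ x : I → ℝ, f x = ∑ i, c i * x i := by
      intro x
      have hx : x = ∑ i, x i • (Pi.single i (1 : ℝ) : I → ℝ) := by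
        funext k
        simp [Finset.sum_apply, Pi.single_apply]
      conv_lhs => rw [hx]
      rw [map_sum]
      refine Finset.sum_congr rfl ?_
      intro i _
      rw [map_smul, smul_eq_mul, mul_comm]
    have hneg : ∀ j, ∑ i, c i * M i j < 0 := by
      intro j
      have h1 := hf1 (M.mulVecLin (Pi.single j 1)) ⟨_, single_mem_stdSimplex ℝ j, rfl⟩
      rw [hf] at h1
      have h2 : ∀ i, M.mulVecLin (Pi.single j 1) i = M i j := by
        intro i
        simp [Matrix.mulVec, dotProduct, Pi.single_apply]
      simp only [h2] at h1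
      linarith
    have hS : 0 < ∑ i, c i := by
      obtain ⟨j⟩ := (inferInstance : Nonempty J)
      rcases (Finset.sum_nonneg fun i (_ : i ∈ Finset.univ) => hc0 i).lt_or_eq with h1 | h1
      · exact h1
      · exfalso
        have h2 : ∀ i, c i = 0 := by
          intro i
          exact (Finset.sum_eq_zero_iff_of_nonneg fun i _ => hc0 i).1 h1.symm i (Finset.mem_univ _)
        have h3 := hneg j
        simp [h2] at h3
    refine ⟨fun i => c i / ∑ i, c i, fun i => div_nonneg (hc0 i) hS.le, ?_, ?_⟩
    · rw [← Finset.sum_div, div_self hS.ne']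
    · intro j
      have h1 := hneg j
      have h2 : ∑ i, c i * M i j =
          (∑ i, c i) - 2 * ∑ i, {i | ¬ a i j}.indicator c i := by
        rw [Finset.mul_sum, ← Finset.sum_sub_distrib]
        refine Finset.sum_congr rfl ?_
        intro i _
        by_cases hij : a i j
        · simp only [M, hij, if_true, Set.indicator, Set.mem_ofPred_eq, not_true_eq_false,
            if_false]
          ring
        · simp only [M, hij, if_false, Set.indicator, Set.mem_ofPred_eq, not_false_eq_true,
            if_true]
          ring
      have h3 : ∑ i, {i | ¬ a i j}.indicator (fun i => c i / ∑ i, c i) i =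
          (∑ i, {i | ¬ a i j}.indicator c i) / ∑ i, c i := by
        rw [Finset.sum_div]
        refine Finset.sum_congr rfl ?_
        intro i _
        by_cases hij : a i j
        · simp [Set.indicator, hij]
        · simp [Set.indicator, hij]
      rw [h3, le_div_iff₀ hS]
      linarith

end MP064793
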