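import Pool.Agent.Lib.MP_064793_lc.HalfNet
import Pool.Agent.Lib.MP_064793_lc.Minimax

/-! # The covering lemma (helper file for MP_064793_lc) -/

namespace MP064793

open Finset

/-- If the 0/1 matrix `a : I → J → Prop` (with `J` finite nonempty, `I` arbitrary) shatters no
`(d+1)`-tuple of rows and no `(d+1)`-tuple of columns, and every `r` rows have a common column,
then `r` columns cover all rows (`r = r(d)`, as in `halfNet_aux`). -/
theorem cover_of_common (d r : ℕ) (hr0 : 0 < r)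
    (hr : ((∑ k ∈ Finset.range (d + 1), (2 * r).choose k : ℕ) : ℝ) < (3 / 2 : ℝ) ^ r)
    {I J : Type*} [Finite J] [Nonempty J] (a : I → J → Prop)
    (h1 : ∀ f : Fin (d + 1) → J, ¬ ∀ η : Set (Fin (d + 1)), ∃ i, ∀ t, (a i (f t) ↔ t ∈ η))
    (h2 : ∀ f : Fin (d + 1) → I, ¬ ∀ η : Set (Fin (d + 1)), ∃ j, ∀ t, (a (f t) j ↔ t ∈ η))
    (hcommon : ∀ x : Fin r → I, ∃ j, ∀ t, a (x t) j) :
    ∃ y : Fin r → J, ∀ i, ∃ t, a i (y t) := by
  classical
  rcases isEmpty_or_nonempty I with hI | hI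
  · exact ⟨fun _ => Classical.arbitrary J, fun i => (hI.false i).elim⟩
  have := Fintype.ofFinite J
  -- the traces of the rows
  let T : I → Set J := fun i => {j | a i j}
  have hfin : Finite (Set.range T) := inferInstance
  have := Fintype.ofFinite (Set.range T)
  have : Nonempty (Set.range T) := ⟨⟨T (Classical.arbitrary I), Set.mem_range_self _⟩⟩
  have hrep : ∀ c : Set.range T, ∃ i, T i = c.1 := fun c => c.2
  choose rep hrep using hrep
  rcases minimax_half (fun (c : Set.range T) (j : J) => j ∈ c.1) with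
    ⟨w, hw, hw1, hrow⟩ | ⟨w, hw, hw1, hcol⟩
  · obtain ⟨y, hy⟩ := halfNet_aux d r hr (fun i : I => T i) h1 w hw hw1
    exact ⟨y, fun i => hy i (hrow ⟨T i, Set.mem_range_self i⟩)⟩
  · have hVC : ∀ f : Fin (d + 1) → Set.range T, ¬ ∀ η : Set (Fin (d + 1)), ∃ j : J,
        ∀ t, (f t ∈ {c : Set.range T | ¬ j ∈ c.1} ↔ t ∈ η) := by
      intro f hf
      refine h2 (fun t => rep (f t)) fun η => ?_
      obtain ⟨j, hj⟩ := hf ηᶜ
      refine ⟨j, fun t => ?_⟩
      have h3 := hj t
      have h4 : a (rep (f t)) j ↔ j ∈ (f t).1 := by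
        rw [← hrep (f t)]
        rfl
      rw [h4]
      simp only [Set.mem_ofPred_eq, Set.mem_compl_iff] at h3
      tauto
    obtain ⟨x, hx⟩ := halfNet_aux d r hr (fun j : J => {c : Set.range T | ¬ j ∈ c.1}) hVC w hw hw1
    obtain ⟨j, hj⟩ := hcommon fun t => rep (x t)
    obtain ⟨t, ht⟩ := hx j (hcol j)
    exfalso
    have h4 : a (rep (x t)) j ↔ j ∈ (x t).1 := by
      rw [← hrep (x t)]
      rfl
    exact ht (h4.1 (hj t))

end MP064793
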