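import Mathlib

/-! # The one-half net theorem (helper file for MP_064793_lc)

Pure combinatorics.  If a family of subsets of a finite set `J` does not shatter any `(d+1)`-tuple,
then for every probability weight on `J` there are `r = r(d)` points hitting all members of weight
at least `1/2`.  Proof: double sampling with the potential `1[x misses S] * 2^{number of y in S}`.
-/

namespace MP064793

open Finset

/-- the swap of `(t,false)` and `(t,true)` for `σ t = true` -/
def hnSwap {r : ℕ} (σ : Fin r → Bool) : (Fin r × Bool) ≃ (Fin r × Bool) where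
  toFun e := (e.1, xor e.2 (σ e.1))
  invFun e := (e.1, xor e.2 (σ e.1))
  left_inv e := by ext <;> simp
  right_inv e := by ext <;> simp

/-- the local potential -/
def hnG (b0 b1 : Bool) : ℝ := if b0 then 0 else if b1 then 2 else 1

theorem hnG_nonneg (b0 b1 : Bool) : 0 ≤ hnG b0 b1 := by
  cases b0 <;> cases b1 <;> norm_num [hnG]

/-- the potential of a trace -/
noncomputable def hnF {r : ℕ} (T : Fin r × Bool → Bool) : ℝ :=
  ∏ t, hnG (T (t, false)) (T (t, true))

theorem hnF_nonneg {r : ℕ} (T : Fin r × Bool → Bool) : 0 ≤ hnF T :=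
  Finset.prod_nonneg (fun _ _ => hnG_nonneg _ _)

theorem sum_hnF_swap {r : ℕ} (T : Fin r × Bool → Bool) :
    ∑ σ : Fin r → Bool, hnF (T ∘ hnSwap σ) ≤ 2 ^ r := by
  have h1 : ∀ σ : Fin r → Bool, hnF (T ∘ hnSwap σ) =
      ∏ t, hnG (T (t, σ t)) (T (t, !(σ t))) := by
    intro σ
    refine Finset.prod_congr rfl (fun t _ => ?_)
    simp [hnSwap]
  simp only [h1]
  have h2 : ∑ σ : Fin r → Bool, ∏ t, hnG (T (t, σ t)) (T (t, !(σ t))) =
      ∏ t, ∑ b : Bool, hnG (T (t, b)) (T (t, !b)) := by
    rw [Finset.prod_univ_sum, Fintype.piFinset_univ]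
  rw [h2]
  calc ∏ t, ∑ b : Bool, hnG (T (t, b)) (T (t, !b)) ≤ ∏ _t : Fin r, (2 : ℝ) := by
        refine Finset.prod_le_prod (fun t _ => Finset.sum_nonneg (fun b _ => hnG_nonneg _ _))
          (fun t _ => ?_)
        rw [Fintype.sum_bool, Bool.not_true, Bool.not_false]
        generalize T (t, true) = a
        generalize T (t, false) = b
        cases a <;> cases b <;> norm_num [hnG]
    _ = 2 ^ r := by simp

/-- Sauer–Shelah for Boolean traces. -/
theorem card_traces_le {E J ι : Type*} [Fintype E] [DecidableEq E] (d : ℕ) (S : ι → Set J)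
    (hVC : ∀ f : Fin (d + 1) → J, ¬ ∀ η : Set (Fin (d + 1)), ∃ i, ∀ t, (f t ∈ S i ↔ t ∈ η))
    (z : E → J) (Fam : Finset (E → Bool))
    (hFam : ∀ T ∈ Fam, ∃ i, ∀ e, T e = true ↔ z e ∈ S i) :
    Fam.card ≤ ∑ k ∈ Finset.range (d + 1), (Fintype.card E).choose k := by
  classical
  set 𝒜 : Finset (Finset E) := Fam.image (fun T => univ.filter (fun e => T e = true)) with h𝒜
  have hcard : 𝒜.card = Fam.card := by
    refine Finset.card_image_of_injective _ ?_
    intro T T' hTT'
    funext e
    have := congrArg (e ∈ ·) hTT'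
    simp only [mem_filter, mem_univ, true_and, eq_iff_iff] at this
    exact Bool.eq_iff_iff.2 this
  have hvc : 𝒜.vcDim ≤ d := by
    refine Finset.sup_le (fun s hs => ?_)
    rw [mem_shatterer] at hs
    by_contra hlt
    push Not at hlt
    obtain ⟨s', hs's, hs'card⟩ := Finset.exists_subset_card_eq (Nat.succ_le_of_lt hlt)
    have hs' : 𝒜.Shatters s' := hs.mono_right hs's
    let f : Fin (d + 1) → E := fun t => (s'.equivFinOfCardEq hs'card).symm t
    have hfinj : Function.Injective f := fun a b hab =>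
      (s'.equivFinOfCardEq hs'card).symm.injective (Subtype.ext hab)
    have hfmem : ∀ t, f t ∈ s' := fun t => ((s'.equivFinOfCardEq hs'card).symm t).2
    refine hVC (z ∘ f) (fun η => ?_)
    obtain ⟨T, hT, hTs⟩ := hs' (t := s'.filter (fun e => ∃ t ∈ η, f t = e)) (filter_subset _ _)
    rw [h𝒜, mem_image] at hT
    obtain ⟨T0, hT0, rfl⟩ := hT
    obtain ⟨i, hi⟩ := hFam T0 hT0
    refine ⟨i, fun t => ?_⟩
    have h3 := congrArg (f t ∈ ·) hTs
    simp only [mem_inter, mem_filter, mem_univ, true_and, hfmem, eq_iff_iff] at h3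
    rw [Function.comp_apply, ← hi, h3]
    constructor
    · rintro ⟨t', ht', h⟩
      exact hfinj h ▸ ht'
    · intro ht
      exact ⟨t, ht, rfl⟩
  calc Fam.card = 𝒜.card := hcard.symm
    _ ≤ 𝒜.shatterer.card := card_le_card_shatterer _
    _ ≤ ∑ k ∈ Iic 𝒜.vcDim, (Fintype.card E).choose k := card_shatterer_le_sum_vcDim
    _ ≤ ∑ k ∈ Finset.range (d + 1), (Fintype.card E).choose k := by
        refine Finset.sum_le_sum_of_subset ?_
        intro k hk
        rw [mem_Iic] at hk
        rw [mem_range]
        omega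

/-- Double sampling.  `r` is any number with `∑_{k ≤ d} C(2r, k) < (3/2)^r`. -/
theorem halfNet_aux (d r : ℕ)
    (hr : ((∑ k ∈ Finset.range (d + 1), (2 * r).choose k : ℕ) : ℝ) < (3 / 2 : ℝ) ^ r)
    {J ι : Type*} [Fintype J] (S : ι → Set J)
    (hVC : ∀ f : Fin (d + 1) → J, ¬ ∀ η : Set (Fin (d + 1)), ∃ i, ∀ t, (f t ∈ S i ↔ t ∈ η))
    (w : J → ℝ) (hw : ∀ j, 0 ≤ w j) (hw1 : ∑ j, w j = 1) :
    ∃ x : Fin r → J, ∀ i, (1 / 2 : ℝ) ≤ ∑ j, (S i).indicator w j → ∃ t, x t ∈ S i := by
  classical
  by_contra hcon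
  push Not at hcon
  choose i hi hmiss using hcon
  -- traces
  let tr : ι → (Fin r × Bool → J) → (Fin r × Bool → Bool) := fun i z e => decide (z e ∈ S i)
  let Fam : (Fin r × Bool → J) → Finset (Fin r × Bool → Bool) :=
    fun z => univ.filter (fun T => ∃ i, tr i z = T)
  let W : (Fin r × Bool → J) → ℝ := fun z => ∏ e, w (z e)
  have hW0 : ∀ z, 0 ≤ W z := fun z => Finset.prod_nonneg (fun _ _ => hw _)
  have hWsum : ∑ z, W z = 1 := by
    have := Finset.prod_univ_sum (fun _ : Fin r × Bool => (univ : Finset J)) (fun _ j => w j)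
    simp only [hw1, Finset.prod_const_one] at this
    rw [this]
    simp [W]
  set Φ : ℕ := ∑ k ∈ Finset.range (d + 1), (2 * r).choose k with hΦ
  have hcardFam : ∀ z, (Fam z).card ≤ Φ := by
    intro z
    have := card_traces_le (E := Fin r × Bool) d S hVC z (Fam z) (by
      intro T hT
      obtain ⟨i, rfl⟩ := (mem_filter.1 hT).2
      exact ⟨i, fun e => by simp [tr]⟩)
    simpa [hΦ, mul_comm] using this
  -- total potential
  set P : ℝ := ∑ z, W z * ∑ T ∈ Fam z, hnF T with hP
  -- upper bound
  have hupper : P ≤ Φ := by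
    have hswap : ∀ σ : Fin r → Bool,
        P = ∑ z, W z * ∑ T ∈ Fam z, hnF (T ∘ hnSwap σ) := by
      intro σ
      rw [hP, ← Equiv.sum_comp ((hnSwap σ).arrowCongr (Equiv.refl J))]
      refine Finset.sum_congr rfl (fun z _ => ?_)
      have hz : ((hnSwap σ).arrowCongr (Equiv.refl J)) z = z ∘ (hnSwap σ).symm := by
        funext e; simp
      rw [hz]
      congr 1
      · exact Equiv.prod_comp (hnSwap σ).symm (fun e => w (z e))
      · refine Finset.sum_bij (fun T _ => T ∘ hnSwap σ) ?_ ?_ ?_ ?_
        · intro T hT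
          obtain ⟨i, rfl⟩ := (mem_filter.1 hT).2
          refine mem_filter.2 ⟨mem_univ _, i, ?_⟩
          funext e
          simp [tr]
        · intro T _ T' _ h
          funext e
          have := congrFun h ((hnSwap σ).symm e)
          simpa using this
        · intro T hT
          obtain ⟨i, rfl⟩ := (mem_filter.1 hT).2
          refine ⟨tr i (z ∘ (hnSwap σ).symm), mem_filter.2 ⟨mem_univ _, i, rfl⟩, ?_⟩
          funext e
          simp [tr]
        · intro T hT
          have : (T ∘ hnSwap σ) ∘ hnSwap σ = T := by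
            funext e
            have : hnSwap σ (hnSwap σ e) = e := (hnSwap σ).left_inv e
            simp [this]
          rw [this]
    have h2 : (2 : ℝ) ^ r * P ≤ 2 ^ r * Φ := by
      calc (2 : ℝ) ^ r * P = ∑ _σ : Fin r → Bool, P := by simp
        _ = ∑ σ : Fin r → Bool, ∑ z, W z * ∑ T ∈ Fam z, hnF (T ∘ hnSwap σ) :=
            Finset.sum_congr rfl (fun σ _ => hswap σ)
        _ = ∑ z, W z * ∑ T ∈ Fam z, ∑ σ : Fin r → Bool, hnF (T ∘ hnSwap σ) := by
            rw [Finset.sum_comm]
            refine Finset.sum_congr rfl (fun z _ => ?_)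
            rw [← Finset.mul_sum, Finset.sum_comm]
        _ ≤ ∑ z, W z * (Φ * 2 ^ r) := by
            refine Finset.sum_le_sum (fun z _ => mul_le_mul_of_nonneg_left ?_ (hW0 z))
            calc ∑ T ∈ Fam z, ∑ σ : Fin r → Bool, hnF (T ∘ hnSwap σ)
                ≤ ∑ _T ∈ Fam z, (2 : ℝ) ^ r := Finset.sum_le_sum (fun T _ => sum_hnF_swap T)
              _ = (Fam z).card * 2 ^ r := by rw [Finset.sum_const, nsmul_eq_mul]
              _ ≤ Φ * 2 ^ r := by
                  have := hcardFam z
                  gcongr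
        _ = 2 ^ r * Φ := by rw [← Finset.sum_mul, hWsum]; ring
    exact le_of_mul_le_mul_left h2 (by positivity)
  -- lower bound
  have hlower : (3 / 2 : ℝ) ^ r ≤ P := by
    let X : (Fin r × Bool → J) → (Fin r → J) := fun z t => z (t, false)
    have h1 : ∑ z, W z * hnF (tr (i (X z)) z) ≤ P := by
      refine Finset.sum_le_sum (fun z _ => mul_le_mul_of_nonneg_left ?_ (hW0 z))
      exact Finset.single_le_sum (f := fun T => hnF T) (fun T _ => hnF_nonneg T)
        (mem_filter.2 ⟨mem_univ _, i (X z), rfl⟩)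
    refine le_trans ?_ h1
    -- split `z` into `(x, y)`
    let e : ((Fin r → J) × (Fin r → J)) ≃ (Fin r × Bool → J) :=
      { toFun := fun p q => bif q.2 then p.2 q.1 else p.1 q.1
        invFun := fun z => (fun t => z (t, false), fun t => z (t, true))
        left_inv := fun p => by simp
        right_inv := fun z => by
          funext q
          rcases q with ⟨t, b⟩
          cases b <;> rfl }
    rw [← Equiv.sum_comp e, Fintype.sum_prod_type]
    have hterm : ∀ x y : Fin r → J, W (e (x, y)) * hnF (tr (i (X (e (x, y)))) (e (x, y))) =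
        (∏ t, w (x t)) * ∏ t, (w (y t) * if y t ∈ S (i x) then 2 else 1) := by
      intro x y
      have hX : X (e (x, y)) = x := rfl
      have hWe : W (e (x, y)) = (∏ t, w (x t)) * ∏ t, w (y t) := by
        simp only [W]
        rw [Fintype.prod_prod_type]
        simp only [Fintype.prod_bool]
        rw [Finset.prod_mul_distrib, mul_comm]
        rfl
      rw [hX, hWe, Finset.prod_mul_distrib, mul_assoc]
      congr 2
      refine Finset.prod_congr rfl (fun t _ => ?_)
      have h3 : x t ∉ S (i x) := hmiss x t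
      change hnG (decide (x t ∈ S (i x))) (decide (y t ∈ S (i x))) = _
      simp [hnG, h3]
    simp only [hterm]
    have hsumy : ∀ x : Fin r → J,
        ∑ y : Fin r → J, (∏ t, w (x t)) * ∏ t, (w (y t) * if y t ∈ S (i x) then (2 : ℝ) else 1) =
        (∏ t, w (x t)) * (1 + ∑ j, (S (i x)).indicator w j) ^ r := by
      intro x
      rw [← Finset.mul_sum]
      congr 1
      have h4 : ∑ j, (w j * if j ∈ S (i x) then (2 : ℝ) else 1) =
          1 + ∑ j, (S (i x)).indicator w j := by
        have h6 : (1 : ℝ) + ∑ j, (S (i x)).indicator w j =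
            ∑ j, (w j + (S (i x)).indicator w j) := by
          rw [Finset.sum_add_distrib, hw1]
        rw [h6]
        refine Finset.sum_congr rfl (fun j _ => ?_)
        by_cases hj : j ∈ S (i x)
        · simp [hj]; ring
        · simp [hj]
      rw [← h4, Fintype.sum_pow]
    simp only [hsumy]
    have h5 : ∑ x : Fin r → J, (∏ t, w (x t)) = 1 := by
      rw [← Fintype.sum_pow, hw1, one_pow]
    calc (3 / 2 : ℝ) ^ r = ∑ x : Fin r → J, (∏ t, w (x t)) * (3 / 2 : ℝ) ^ r := by
          rw [← Finset.sum_mul, h5, one_mul]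
      _ ≤ _ := by
          refine Finset.sum_le_sum (fun x _ => mul_le_mul_of_nonneg_left ?_
            (Finset.prod_nonneg (fun _ _ => hw _)))
          have := hi x
          exact pow_le_pow_left₀ (by norm_num) (by linarith) r
  linarith

end MP064793
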