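import Pool.Agent.Lib.MP_064793_lc.StepOne

/-! # Step 3: the separation theorem (helper for MP_064793_lc) -/

namespace MP064793

open FirstOrder FirstOrder.Language Set

universe u v w

variable (L : FirstOrder.Language.{u, v}) {N : Type w} [L.Structure N]

/-- A pair `A false, A true` of `M`-definable sets is valid for the set `R0` of points when the
`M`-points of `A true` lie in `R0` and the `M`-points of `A false` lie off `R0`. -/
def Valid (M : Set N) {γ : Type} (R0 : Set (γ → N)) (A : Bool → Set (γ → N)) : Prop :=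
  (∀ b, M.Definable L (A b)) ∧ ∀ b, ∀ p ∈ A b, (∀ i, p i ∈ M) → (p ∈ R0 ↔ b = true)

theorem separation_aux {M : Set N} (hM : MPoints L M) {γ : Type} [Finite γ] (R0 : Set (γ → N))
    (K : ℕ) :
    ∀ (Q : Type) (_ : Finite Q) (H : Q → Set ((Fin K × γ) → N))
      (_ : ∀ q, M.Definable L (H q)) (ε : Q → Fin K → Bool)
      (_ : ∀ p : (Fin K × γ) → N, ∃ q, p ∈ H q)
      (_ : ∀ q, ∀ A : Fin K → Bool → Set (γ → N), (∀ i, Valid L M R0 (A i)) →
        ∀ p ∈ H q, ¬ ∀ i, (fun j => p (i, j)) ∈ A i (ε q i)),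
      ∃ (β : Type) (_ : Finite β) (ξ : Set ((γ ⊕ β) → N)), M.Definable L ξ ∧
        ∀ A : Bool → Set (γ → N), Valid L M R0 A → ∃ v : β → N, (∀ i, v i ∈ M) ∧
          (∀ p ∈ A true, Sum.elim p v ∈ ξ) ∧ (∀ p ∈ A false, Sum.elim p v ∉ ξ) := by
  classical
  induction K with
  | zero =>
    intro Q hQ H hH ε htot hprop
    exfalso
    have p : (Fin 0 × γ) → N := fun z => z.1.elim0
    obtain ⟨q, hq⟩ := htot p
    exact hprop q (fun i => i.elim0) (fun i => i.elim0) p hq (fun i => i.elim0)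
  | succ K ih =>
    intro Q hQ H hH ε htot hprop
    set ξ : Set ((γ ⊕ (Fin K × γ)) → N) :=
      ⋃ q : {q : Q // ε q 0 = false}, (fun z => z ∘ splitIdx K γ) ⁻¹' (H q.1) with hξ
    have hξdef : M.Definable L ξ :=
      definable_iUnion_of_finite (fun q => (hH q.1).preimage_comp _)
    by_cases hgood : ∀ A : Bool → Set (γ → N), Valid L M R0 A →
        ∃ v : (Fin K × γ) → N, (∀ i, v i ∈ M) ∧
          (∀ p ∈ A true, Sum.elim p v ∈ ξ) ∧ (∀ p ∈ A false, Sum.elim p v ∉ ξ)
    · exact ⟨_, inferInstance, ξ, hξdef, hgood⟩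
    push Not at hgood
    obtain ⟨A0, hA0, hbad⟩ := hgood
    -- `H' q p` : some `p0 ∈ A0 (ε q 0)` has `H q (p0, p)`
    refine ih Q hQ (fun q => {p | ∃ p0 : γ → N, Sum.elim p p0 ∈
        {z : (Fin K × γ) ⊕ γ → N | (z ∘ Sum.inr) ∈ A0 (ε q 0) ∧
          (z ∘ Sum.swap) ∘ splitIdx K γ ∈ H q}}) ?_
        (fun q i => ε q i.succ) ?_ ?_
    · intro q
      refine Definable.exists_of_finite ?_
      refine Definable.inter ?_ ?_
      · exact (hA0.1 _).preimage_comp Sum.inr
      · exact (hH q).preimage_comp (Sum.swap ∘ splitIdx K γ)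
    · -- totality
      by_contra hcon
      push Not at hcon
      obtain ⟨p, hp⟩ := hcon
      have hdef : M.Definable L (⋂ q : Q, {p | ∃ p0 : γ → N, Sum.elim p p0 ∈
        {z : (Fin K × γ) ⊕ γ → N | (z ∘ Sum.inr) ∈ A0 (ε q 0) ∧
          (z ∘ Sum.swap) ∘ splitIdx K γ ∈ H q}}ᶜ) := by
        refine definable_iInter_of_finite (fun q => Definable.compl ?_)
        refine Definable.exists_of_finite ?_
        refine Definable.inter ?_ ?_
        · exact (hA0.1 _).preimage_comp Sum.inr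
        · exact (hH q).preimage_comp (Sum.swap ∘ splitIdx K γ)
      obtain ⟨v, hv, hvM⟩ := hM _ _ hdef ⟨p, mem_iInter.2 (fun q => hp q)⟩
      have hv' : ∀ q, ∀ p0 ∈ A0 (ε q 0), (Sum.elim p0 v) ∘ splitIdx K γ ∉ H q := by
        intro q p0 hp0 hH'
        refine (mem_iInter.1 hv q) ⟨p0, hp0, ?_⟩
        have : (Sum.elim v p0 ∘ Sum.swap : γ ⊕ (Fin K × γ) → N) = Sum.elim p0 v := by
          funext z
          rcases z with z | z <;> rfl
        rw [this]
        exact hH'
      obtain ⟨p0, hp0, hp0'⟩ := hbad v hvM (by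
        intro p0 hp0
        obtain ⟨q, hq⟩ := htot (Sum.elim p0 v ∘ splitIdx K γ)
        have hq0 : ε q 0 = false := by
          by_contra h0
          have h1 : ε q 0 = true := by simpa using h0
          exact hv' q p0 (by rw [h1]; exact hp0) hq
        exact mem_iUnion.2 ⟨⟨q, hq0⟩, hq⟩)
      obtain ⟨q, hq⟩ := mem_iUnion.1 hp0'
      exact hv' q.1 p0 (by rw [q.2]; exact hp0) hq
    · intro q A hA p hp hpat
      obtain ⟨p0, hp0, hp0'⟩ := hp
      refine hprop q (Fin.cases A0 A) ?_ _ hp0' ?_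
      · intro i
        refine Fin.cases ?_ ?_ i
        · exact hA0
        · exact hA
      · intro i
        refine Fin.cases ?_ ?_ i
        · exact hp0
        · exact hpat

/-- **Separation theorem.** -/
theorem separation {M : Set N} (hM : MPoints L M) {γ δ : Type} [Finite γ] [Finite δ]
    (R : Set ((γ ⊕ δ) → N)) (hR : M.Definable L R) (K : ℕ)
    (hK : NShat (fun (p : γ → N) (z : δ → N) => Sum.elim p z ∈ R) K) (c : δ → N) :
    ∃ (β : Type) (_ : Finite β) (ξ : Set ((γ ⊕ β) → N)), M.Definable L ξ ∧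
        ∀ A : Bool → Set (γ → N), Valid L M {p | Sum.elim p c ∈ R} A →
          ∃ v : β → N, (∀ i, v i ∈ M) ∧
          (∀ p ∈ A true, Sum.elim p v ∈ ξ) ∧ (∀ p ∈ A false, Sum.elim p v ∉ ξ) := by
  classical
  -- the shattering relations
  have hRs : ∀ ε : Fin K → Bool, M.Definable L {p : Fin K × γ → N | ∃ z : δ → N,
      Sum.elim p z ∈ ⋂ i : Fin K, {y : (Fin K × γ) ⊕ δ → N |
        y ∘ (Sum.map (fun j => (i, j)) id) ∈ (bif ε i then R else Rᶜ)}} := by
    intro ε
    refine Definable.exists_of_finite (definable_iInter_of_finite (fun i => ?_))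
    refine Definable.preimage_comp (Sum.map (fun j => (i, j)) id) ?_
    cases ε i
    · exact hR.compl
    · exact hR
  have hcomp : ∀ (p : Fin K × γ → N) (z : δ → N) (i : Fin K),
      (Sum.elim p z ∘ (Sum.map (fun j => (i, j)) id) : γ ⊕ δ → N) =
        Sum.elim (fun j => p (i, j)) z := by
    intro p z i
    funext y
    rcases y with y | y <;> rfl
  refine separation_aux L hM {p | Sum.elim p c ∈ R} K (Fin K → Bool) inferInstance
    (fun ε => {p : Fin K × γ → N | ∃ z : δ → N,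
      Sum.elim p z ∈ ⋂ i : Fin K, {y : (Fin K × γ) ⊕ δ → N |
        y ∘ (Sum.map (fun j => (i, j)) id) ∈ (bif ε i then R else Rᶜ)}}ᶜ)
    (fun ε => (hRs ε).compl) (fun ε => ε) ?_ ?_
  · intro p
    have := hK (fun i j => p (i, j))
    push Not at this
    obtain ⟨η, hη⟩ := this
    refine ⟨fun i => decide (i ∈ η), ?_⟩
    rintro ⟨z, hz⟩
    obtain ⟨t, ht⟩ := hη z
    have hzt := mem_iInter.1 hz t
    rw [Set.mem_ofPred_eq, hcomp] at hzt
    by_cases h : t ∈ η
    · simp only [h, decide_true, cond_true] at hzt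
      tauto
    · simp only [h, decide_false, cond_false] at hzt
      tauto
  · intro ε A hA p hp hpat
    -- the set of bad tuples is `M`-definable, so has an `M`-point
    have hdef : M.Definable L ({p : Fin K × γ → N | ∃ z : δ → N,
      Sum.elim p z ∈ ⋂ i : Fin K, {y : (Fin K × γ) ⊕ δ → N |
        y ∘ (Sum.map (fun j => (i, j)) id) ∈ (bif ε i then R else Rᶜ)}}ᶜ ∩
        ⋂ i : Fin K, (fun p : Fin K × γ → N => p ∘ (fun j => (i, j))) ⁻¹' (A i (ε i))) := by
      refine (hRs ε).compl.inter (definable_iInter_of_finite (fun i => ?_))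
      exact ((hA i).1 _).preimage_comp _
    obtain ⟨m, ⟨hm1, hm2⟩, hmM⟩ := hM _ _ hdef ⟨p, hp, mem_iInter.2 hpat⟩
    refine hm1 ⟨c, mem_iInter.2 (fun i => ?_)⟩
    rw [Set.mem_ofPred_eq, hcomp]
    have h1 := (hA i).2 (ε i) _ (mem_iInter.1 hm2 i) (fun j => hmM _)
    have h2 : Sum.elim (fun j => m (i, j)) c ∈ R ↔ ε i = true := h1
    cases hε : ε i
    · simp only [hε] at h2 ⊢
      simpa using h2
    · simp only [hε] at h2 ⊢
      simpa using h2

end MP064793
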