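import Pool.Agent.Lib.MP_064793_lc.StepTwo
import Pool.Agent.Lib.MP_064793_lc.Separation

/-! # The internal theorem (helper for MP_064793_lc) -/

namespace MP064793

open FirstOrder FirstOrder.Language Set

universe u v w

variable (L : FirstOrder.Language.{u, v}) {N : Type w} [L.Structure N]

theorem internal {M : Set N} (hM : MPoints L M)
    (hsat : ∀ C : Set N, C.Finite → SatOver L (M ∪ C)) (hNIP : NIPDef L N)
    {α : Type} [Finite α] (D : Set (α → N))
    (hDinv : ∀ x y : α → N, (∀ S, M.Definable L S → (x ∈ S ↔ y ∈ S)) → (x ∈ D ↔ y ∈ D))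
    (K : ℕ) (H : Set (Fin K) → Set ((Fin K × α) → N)) (hH : ∀ η, M.Definable L (H η))
    (htot : ∀ p : (Fin K × α) → N, ∃ η, p ∈ H η)
    (hpat : ∀ η, ∀ p ∈ H η, ¬ ∀ i, ((fun j => p (i, j)) ∈ D ↔ i ∈ η)) :
    ∃ (β : Type) (_ : Finite β) (ξ : Set ((α ⊕ β) → N)), M.Definable L ξ ∧
      ∀ F : Set (α → N), F.Finite → ∃ v : β → N, (∀ i, v i ∈ M) ∧
        ∀ x ∈ F, (Sum.elim x v ∈ ξ ↔ x ∈ D) := by
  classical
  -- Step 1
  obtain ⟨C, hC, β, hβ, W, hW, hUA⟩ := stepOne_aux L (M := M) D K ∅ finite_empty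
    (ULift.{w} (Set (Fin K))) inferInstance (fun η => H η.down)
    (fun η => (hH _).mono subset_union_left) (fun η => η.down)
    (fun p _ => by obtain ⟨η, h⟩ := htot p; exact ⟨⟨η⟩, h⟩)
    (fun η p _ hp => hpat _ p hp)
  -- Step 2
  obtain ⟨β', hβ', ψ, hψ, hψF⟩ := stepTwo L (hsat C hC) hNIP D hDinv W hW hUA
  -- write `ψ` as a fibre of an `M`-definable set
  obtain ⟨n, c, hc⟩ : ∃ (n : ℕ) (c : Fin n → N), range c = C := by
    have : Finite C := hC
    obtain ⟨n, ⟨e⟩⟩ := Finite.exists_equiv_fin C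
    refine ⟨n, fun i => e.symm i, ?_⟩
    ext z
    constructor
    · rintro ⟨i, rfl⟩
      exact (e.symm i).2
    · intro hz
      exact ⟨e ⟨z, hz⟩, by simp⟩
  rw [← hc] at hψ
  obtain ⟨R, hR, hRψ⟩ := Definable.unfiber c hψ
  obtain ⟨K', hK'⟩ := hNIP M (α ⊕ β') (Fin n) R hR
  -- Step 3
  obtain ⟨β'', hβ'', ξ, hξ, hsep⟩ := separation L hM R hR K' hK' c
  -- Step 4
  refine ⟨β' ⊕ β'', inferInstance, (fun z => z ∘ (Equiv.sumAssoc α β' β'').toFun) ⁻¹' ξ,
    hξ.preimage_comp _, ?_⟩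
  intro F hF
  obtain ⟨m, hmM, ⟨-, θ1, hθ1, hF1, hθ1'⟩, ⟨-, θ0, hθ0, hF0, hθ0'⟩⟩ := hψF F hF
  -- the valid pair
  have hmdef : ∀ θ : Set (α → N), M.Definable L θ →
      M.Definable L {p : α ⊕ β' → N | p ∘ Sum.inl ∈ θ ∧ p ∘ Sum.inr = m} := by
    intro θ hθ
    have h1 : M.Definable L {p : α ⊕ β' → N | p ∘ Sum.inl ∈ θ} := hθ.preimage_comp _
    have h2 : M.Definable L {p : α ⊕ β' → N | p ∘ Sum.inr = m} := by
      have : {p : α ⊕ β' → N | p ∘ Sum.inr = m} =
          ⋂ i : β', {p : α ⊕ β' → N | p (Sum.inr i) = m i} := by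
        ext p
        simp only [Set.mem_ofPred_eq, mem_iInter, funext_iff, Function.comp_apply]
      rw [this]
      refine definable_iInter_of_finite (fun i => ?_)
      refine ⟨(Term.var (Sum.inr i)).equal (L.con (⟨m i, hmM i⟩ : ↑M)).term, ?_⟩
      ext p
      simp
    exact h1.inter h2
  obtain ⟨v, hvM, hv1, hv0⟩ := hsep
    (fun b => {p : α ⊕ β' → N | p ∘ Sum.inl ∈ (bif b then θ1 else θ0) ∧ p ∘ Sum.inr = m})
    ⟨by
      intro b
      refine hmdef _ ?_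
      cases b
      · exact hθ0
      · exact hθ1, by
      rintro b p ⟨hp1, hp2⟩ hpM
      have hp : p = Sum.elim (p ∘ Sum.inl) m := by rw [← hp2, Sum.elim_comp_inl_inr]
      rw [Set.mem_ofPred_eq, ← hRψ, hp]
      cases b
      · simp only [cond_false] at hp1
        simpa using hθ0' _ hp1 (fun i => hpM _)
      · simp only [cond_true] at hp1
        simpa using hθ1' _ hp1 (fun i => hpM _)⟩
  refine ⟨Sum.elim m v, ?_, ?_⟩
  · rintro (i | i)
    · exact hmM i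
    · exact hvM i
  · intro x hx
    have hassoc : (Sum.elim x (Sum.elim m v) ∘ (Equiv.sumAssoc α β' β'').toFun :
        (α ⊕ β') ⊕ β'' → N) = Sum.elim (Sum.elim x m) v := by
      funext z
      rcases z with (z | z) | z <;> rfl
    rw [Set.mem_preimage, hassoc]
    by_cases hxD : x ∈ D
    · have := hv1 (Sum.elim x m) ⟨by simpa using hF1 ⟨hx, hxD⟩, by simp⟩
      simp [this, hxD]
    · have := hv0 (Sum.elim x m) ⟨by simpa using hF0 ⟨hx, hxD⟩, by simp⟩
      simp [this, hxD]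

end MP064793
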