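import Mathlib

/-! # Polynomial against exponential (helper file for MP_064793_lc) -/

namespace MP064793

open Finset

/-- Polynomial against exponential. -/
theorem exists_sampleSize (d : ℕ) :
    ∃ r : ℕ, 0 < r ∧
      ((∑ k ∈ Finset.range (d + 1), (2 * r).choose k : ℕ) : ℝ) < (3 / 2 : ℝ) ^ r := by
  have h1 := (tendsto_pow_const_div_const_pow_of_one_lt d (r := (3 / 2 : ℝ)) (by norm_num)).const_mul
    ((d + 1 : ℝ) * 2 ^ d)
  rw [mul_zero] at h1
  have h2 := (h1.eventually (gt_mem_nhds (zero_lt_one' ℝ))).and (Filter.eventually_gt_atTop 0)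
  obtain ⟨r, hr, hr0⟩ := h2.exists
  refine ⟨r, hr0, ?_⟩
  have h3 : (∑ k ∈ Finset.range (d + 1), (2 * r).choose k) ≤ (d + 1) * (2 * r) ^ d := by
    calc (∑ k ∈ Finset.range (d + 1), (2 * r).choose k)
        ≤ ∑ k ∈ Finset.range (d + 1), (2 * r) ^ d := by
          refine Finset.sum_le_sum fun k hk => ?_
          have hk' : k ≤ d := Nat.lt_succ_iff.1 (Finset.mem_range.1 hk)
          exact (Nat.choose_le_pow (2 * r) k).trans (Nat.pow_le_pow_right (by omega) hk')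
      _ = (d + 1) * (2 * r) ^ d := by simp
  have h4 : (0 : ℝ) < (3 / 2 : ℝ) ^ r := by positivity
  have h5 : ((d + 1 : ℝ) * 2 ^ d) * (r : ℝ) ^ d < (3 / 2 : ℝ) ^ r := by
    have : (d + 1 : ℝ) * 2 ^ d * ((r : ℝ) ^ d / (3 / 2 : ℝ) ^ r) < 1 := hr
    rwa [← mul_div_assoc, div_lt_one h4] at this
  calc ((∑ k ∈ Finset.range (d + 1), (2 * r).choose k : ℕ) : ℝ)
      ≤ (((d + 1) * (2 * r) ^ d : ℕ) : ℝ) := by exact_mod_cast h3
    _ = ((d + 1 : ℝ) * 2 ^ d) * (r : ℝ) ^ d := by push_cast; ring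
    _ < (3 / 2 : ℝ) ^ r := h5

end MP064793
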