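import Pool.Agent.Lib.MP_064793_lc.Defs

/-! # Step 1: uniform classification of finitely many good points (helper for MP_064793_lc) -/

namespace MP064793

open FirstOrder FirstOrder.Language Set

universe u v w

variable (L : FirstOrder.Language.{u, v}) {N : Type w} [L.Structure N]

/-- The map used to split off the first point of a `K+1`-tuple of points. -/
def splitIdx (K : ℕ) (α : Type) : Fin (K + 1) × α → α ⊕ (Fin K × α) :=
  fun z => Fin.cases (motive := fun _ => α ⊕ (Fin K × α)) (Sum.inl z.2)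
    (fun i => Sum.inr (i, z.2)) z.1

@[simp] theorem splitIdx_zero (K : ℕ) (α : Type) (a : α) :
    splitIdx K α (0, a) = Sum.inl a := rfl

@[simp] theorem splitIdx_succ (K : ℕ) (α : Type) (i : Fin K) (a : α) :
    splitIdx K α (i.succ, a) = Sum.inr (i, a) := rfl

/-- Uniform classification over the base `M ∪ C`. -/
def UA (M C : Set N) {α : Type} (D : Set (α → N)) {β : Type} (W : Set ((α ⊕ β) → N)) : Prop :=
  ∀ F : Set (α → N), F.Finite → (∀ x ∈ F, FS L M (M ∪ C) x) →
    ∃ v : β → N, (∀ i, v i ∈ M) ∧ ∀ x ∈ F, (Sum.elim x v ∈ W ↔ x ∈ D)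

theorem stepOne_aux {M : Set N} {α : Type} [Finite α] (D : Set (α → N)) (K : ℕ) :
    ∀ (C : Set N) (_ : C.Finite) (Q : Type w) (_ : Finite Q) (H : Q → Set ((Fin K × α) → N))
      (_ : ∀ q, (M ∪ C).Definable L (H q)) (ε : Q → Set (Fin K))
      (_ : ∀ p : (Fin K × α) → N, (∀ i, p i ∈ M) → ∃ q, p ∈ H q)
      (_ : ∀ q, ∀ p : (Fin K × α) → N, FS L M (M ∪ C) p → p ∈ H q →
        ¬ ∀ i, ((fun j => p (i, j)) ∈ D ↔ i ∈ ε q)),
      ∃ (C' : Set N) (_ : C'.Finite) (β : Type) (_ : Finite β) (W : Set ((α ⊕ β) → N)),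
        (M ∪ C').Definable L W ∧ UA L M C' D W := by
  classical
  induction K with
  | zero =>
    intro C hC Q hQ H hH ε htot hprop
    exfalso
    have p : (Fin 0 × α) → N := fun z => z.1.elim0
    obtain ⟨q, hq⟩ := htot p (fun z => z.1.elim0)
    exact hprop q p (FS.of_mem (fun z => z.1.elim0)) hq (fun i => i.elim0)
  | succ K ih =>
    intro C hC Q hQ H hH ε htot hprop
    -- every finitely satisfiable tuple lies in some `H q`
    have htot' : ∀ p : (Fin (K + 1) × α) → N, FS L M (M ∪ C) p → ∃ q, p ∈ H q := by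
      intro p hp
      by_contra hcon
      push Not at hcon
      have hdef : (M ∪ C).Definable L (⋃ q, H q)ᶜ :=
        (definable_iUnion_of_finite hH).compl
      obtain ⟨m, hm, hmM⟩ := hp _ hdef (by simpa using hcon)
      obtain ⟨q, hq⟩ := htot m hmM
      exact hm (mem_iUnion.2 ⟨q, hq⟩)
    set W : Set ((α ⊕ (Fin K × α)) → N) :=
      ⋃ q : {q : Q // (0 : Fin (K + 1)) ∉ ε q}, (fun z => z ∘ splitIdx K α) ⁻¹' (H q.1) with hW
    have hWdef : (M ∪ C).Definable L W :=
      definable_iUnion_of_finite (fun q => (hH q.1).preimage_comp _)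
    by_cases hUA : UA L M C D W
    · exact ⟨C, hC, _, inferInstance, W, hWdef, hUA⟩
    unfold UA at hUA
    push Not at hUA
    obtain ⟨F, hF, hFS, hbad⟩ := hUA
    -- the new base
    set C' : Set N := C ∪ ⋃ x ∈ F, range x with hC'
    have hC'fin : C'.Finite := hC.union (hF.biUnion (fun x _ => finite_range x))
    have hCC' : M ∪ C ⊆ M ∪ C' := union_subset_union_right _ subset_union_left
    have hxC' : ∀ x ∈ F, ∀ i, x i ∈ M ∪ C' := by
      intro x hx i
      exact Or.inr (Or.inr (mem_biUnion hx ⟨i, rfl⟩))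
    have : Finite F := hF
    refine ih C' hC'fin {z : Q × F // ((0 : Fin (K + 1)) ∈ ε z.1 ↔ (z.2 : α → N) ∈ D)}
      inferInstance
      (fun z => {p | Sum.elim (z.1.2 : α → N) p ∘ splitIdx K α ∈ H z.1.1}) ?_
      (fun z => {i | i.succ ∈ ε z.1.1}) ?_ ?_
    · intro z
      exact Definable.fiberLeft (((hH z.1.1).mono hCC').preimage_comp (splitIdx K α)) _
        (hxC' _ z.1.2.2)
    · intro v hv
      obtain ⟨x, hx, hxbad'⟩ := hbad v hv
      have hxbad : ¬ (Sum.elim x v ∈ W ↔ x ∈ D) := by tauto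
      have hxv : FS L M (M ∪ C) (Sum.elim x v) := by
        refine FS.elim (B := M ∪ C') subset_union_left hCC' (hxC' x hx) (hFS x hx)
          (FS.of_mem hv)
      by_cases hxD : x ∈ D
      · obtain ⟨q, hq⟩ := htot' _ (hxv.comp (splitIdx K α))
        have hq0 : (0 : Fin (K + 1)) ∈ ε q := by
          by_contra h0
          refine hxbad ?_
          simp only [hxD, iff_true]
          exact mem_iUnion.2 ⟨⟨q, h0⟩, hq⟩
        exact ⟨⟨(q, ⟨x, hx⟩), by simp [hq0, hxD]⟩, hq⟩
      · have hxW : Sum.elim x v ∈ W := by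
          by_contra hxW
          exact hxbad (by simp [hxW, hxD])
        obtain ⟨q, hq⟩ := mem_iUnion.1 hxW
        exact ⟨⟨(q.1, ⟨x, hx⟩), by simp [q.2, hxD]⟩, hq⟩
    · rintro ⟨⟨q, x⟩, hqx⟩ p hp hpH hpat
      have hxp : FS L M (M ∪ C) (Sum.elim (x : α → N) p) :=
        FS.elim (B := M ∪ C') subset_union_left hCC' (hxC' x x.2) (hFS x x.2) hp
      refine hprop q _ (hxp.comp (splitIdx K α)) hpH ?_
      intro i
      refine Fin.cases ?_ ?_ i
      · exact hqx.symm
      · intro i
        exact hpat i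

end MP064793
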