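import Pool.Agent.Lib.MP_064793_lc.StepOne
import Pool.Agent.Lib.MP_064793_lc.FL
import Pool.Agent.Lib.MP_064793_lc.SampleSize

/-! # Step 2: from points to sets (helper for MP_064793_lc) -/

namespace MP064793

open FirstOrder FirstOrder.Language Set

universe u v w

variable (L : FirstOrder.Language.{u, v}) {N : Type w} [L.Structure N]

/-- The filter base of `A`-definable sets containing all `M`-points of an `M`-definable
set around `F`. -/
def EE (M A : Set N) {α : Type} (F : Set (α → N)) : Set (Set (α → N)) :=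
  {E | A.Definable L E ∧ ∃ θ, M.Definable L θ ∧ F ⊆ θ ∧ ∀ x ∈ θ, (∀ i, x i ∈ M) → x ∈ E}

/-- A good point: finitely satisfiable over `A`, with the same type over `M` as a point of `F`. -/
def Good (M A : Set N) {α : Type} (F : Set (α → N)) (x : α → N) : Prop :=
  FS L M A x ∧ ∃ f ∈ F, ∀ S : Set (α → N), M.Definable L S → (x ∈ S ↔ f ∈ S)

variable {L}

theorem EE.mono {M A : Set N} {α : Type} {F : Set (α → N)} {E E' : Set (α → N)}
    (h : E ∈ EE L M A F) (hE' : A.Definable L E') (hsub : E ⊆ E') : E' ∈ EE L M A F := by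
  obtain ⟨_, θ, h1, h2, h3⟩ := h
  exact ⟨hE', θ, h1, h2, fun x hx hxM => hsub (h3 x hx hxM)⟩

theorem EE.iInter {M A : Set N} {α : Type} {F : Set (α → N)} {ι : Type*} [Finite ι]
    {E : ι → Set (α → N)} (h : ∀ i, E i ∈ EE L M A F) : (⋂ i, E i) ∈ EE L M A F := by
  choose hd θ h1 h2 h3 using h
  refine ⟨definable_iInter_of_finite hd, ⋂ i, θ i, definable_iInter_of_finite h1,
    subset_iInter h2, ?_⟩
  intro x hx hxM
  exact mem_iInter.2 (fun i => h3 i x (mem_iInter.1 hx i) hxM)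

/-- Points in all members of the filter base are good. -/
theorem good_of_forall {M A : Set N} {α : Type} {F : Set (α → N)} (hF : F.Finite)
    (hMA : M ⊆ A) {x : α → N} (hx : ∀ E ∈ EE L M A F, x ∈ E) : Good L M A F x := by
  classical
  constructor
  · intro S hS hxS
    by_contra hcon
    push Not at hcon
    refine hx Sᶜ ⟨hS.compl, univ, definable_univ, subset_univ _, ?_⟩ hxS
    intro y _ hyM hyS
    obtain ⟨i, hi⟩ := hcon y hyS
    exact hi (hyM i)
  · by_contra hcon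
    push Not at hcon
    have : ∀ f ∈ F, ∃ S : Set (α → N), M.Definable L S ∧ x ∉ S ∧ f ∈ S := by
      intro f hf
      obtain ⟨S, hS, h⟩ := hcon f hf
      by_cases hxS : x ∈ S
      · exact ⟨Sᶜ, hS.compl, by simpa using hxS, by simp only [mem_compl_iff]; tauto⟩
      · exact ⟨S, hS, hxS, by tauto⟩
    choose! S hS hxS hfS using this
    have : Finite F := hF
    have hθ : M.Definable L (⋃ f : F, S f) :=
      definable_iUnion_of_finite (fun f => hS f f.2)
    have := hx (⋃ f : F, S f) ⟨hθ.mono hMA, _, hθ,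
      fun f hf => mem_iUnion.2 ⟨⟨f, hf⟩, hfS f hf⟩, fun x hx _ => hx⟩
    obtain ⟨f, hf⟩ := mem_iUnion.1 this
    exact hxS f f.2 hf

variable (L)

/-- **Stage lemma**: saturation and the covering lemma. -/
theorem stage {M A : Set N} (hMA : M ⊆ A) (hsat : SatOver L A) {α β : Type} [Finite α]
    [Finite β] (W : Set ((α ⊕ β) → N)) (hW : A.Definable L W) (d r : ℕ) (hr0 : 0 < r)
    (hr : ((∑ k ∈ Finset.range (d + 1), (2 * r).choose k : ℕ) : ℝ) < (3 / 2 : ℝ) ^ r)
    (h1 : NShat (fun (x : α → N) (y : β → N) => Sum.elim x y ∈ W) (d + 1))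
    (h2 : NShat (fun (y : β → N) (x : α → N) => Sum.elim x y ∈ W) (d + 1))
    (F : Set (α → N)) (hF : F.Finite) (V : Set (β → N)) (hV : ∀ v ∈ V, ∀ i, v i ∈ A)
    (hgood : ∀ B : Set (α → N), B.Finite → (∀ x ∈ B, Good L M A F x) →
      ∃ v ∈ V, ∀ x ∈ B, Sum.elim x v ∈ W) :
    ∃ v : Fin r → β → N, (∀ t, v t ∈ V) ∧ {x | ∃ t, Sum.elim x (v t) ∈ W} ∈ EE L M A F := by
  classical
  -- the inconsistent family
  have hfib : ∀ v ∈ V, A.Definable L {x : α → N | Sum.elim x v ∈ W} :=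
    fun v hv => Definable.fiber hW v (hV v hv)
  let Fam : (EE L M A F) ⊕ V → Set ((Fin r × α) → N) :=
    Sum.elim (fun E => ⋂ t : Fin r, (fun p => p ∘ (fun a => (t, a))) ⁻¹' (E : Set (α → N)))
      (fun v => (⋂ t : Fin r, (fun p => p ∘ (fun a => (t, a))) ⁻¹'
        {x : α → N | Sum.elim x (v : β → N) ∈ W})ᶜ)
  have hFam : ∀ i, A.Definable L (Fam i) := by
    rintro (E | v)
    · exact definable_iInter_of_finite (fun t => E.2.1.preimage_comp _)
    · exact (definable_iInter_of_finite (fun t => (hfib v v.2).preimage_comp _)).compl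
  have hinc : ¬ (⋂ i, Fam i).Nonempty := by
    rintro ⟨p, hp⟩
    have hpg : ∀ t : Fin r, Good L M A F (p ∘ (fun a => (t, a))) := by
      intro t
      refine good_of_forall hF hMA (fun E hE => ?_)
      have := mem_iInter.1 hp (Sum.inl ⟨E, hE⟩)
      exact mem_iInter.1 this t
    obtain ⟨v, hv, hvB⟩ := hgood (range (fun t : Fin r => p ∘ (fun a => (t, a))))
      (finite_range _) (by rintro _ ⟨t, rfl⟩; exact hpg t)
    have := mem_iInter.1 hp (Sum.inr ⟨v, hv⟩)
    exact this (mem_iInter.2 (fun t => hvB _ ⟨t, rfl⟩))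
  have hfin : ∃ s : Finset ((EE L M A F) ⊕ V), ¬ (⋂ i ∈ s, Fam i).Nonempty := by
    by_contra hcon
    push Not at hcon
    exact hinc (hsat _ _ Fam hFam hcon)
  obtain ⟨s, hs⟩ := hfin
  obtain ⟨v0, hv0, -⟩ := hgood ∅ finite_empty (by simp)
  -- the finite intersection of members of the filter base
  set E : Set (α → N) := ⋂ e : {e // e ∈ s.toLeft}, (e.1 : Set (α → N)) with hE
  have hEE : E ∈ EE L M A F := EE.iInter (fun e => e.1.2)
  -- the finite set of columns
  let J : Type w := Option {v // v ∈ s.toRight}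
  let toV : J → (β → N) := fun j => Option.elim j v0 (fun v => (v.1 : β → N))
  have htoV : ∀ j, toV j ∈ V := by
    rintro (_ | v)
    · exact hv0
    · exact v.1.2
  obtain ⟨y, hy⟩ := cover_of_common d r hr0 hr (I := E) (J := J)
    (fun x j => Sum.elim (x : α → N) (toV j) ∈ W)
    (by
      intro f hf
      refine h2 (fun t => toV (f t)) (fun η => ?_)
      obtain ⟨i, hi⟩ := hf η
      exact ⟨i, hi⟩)
    (by
      intro f hf
      refine h1 (fun t => (f t : α → N)) (fun η => ?_)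
      obtain ⟨i, hi⟩ := hf η
      exact ⟨toV i, hi⟩)
    (by
      intro x
      by_contra hcon
      push Not at hcon
      refine hs ⟨fun z => (x z.1 : α → N) z.2, ?_⟩
      refine mem_iInter₂.2 ?_
      rintro (e | v) he
      · refine mem_iInter.2 (fun t => ?_)
        exact mem_iInter.1 (x t).2 ⟨e, Finset.mem_toLeft.2 he⟩
      · obtain ⟨t, ht⟩ := hcon (some ⟨v, Finset.mem_toRight.2 he⟩)
        intro hmem
        exact ht (mem_iInter.1 hmem t))
  refine ⟨fun t => toV (y t), fun t => htoV _, EE.mono hEE ?_ ?_⟩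
  · have : {x | ∃ t, Sum.elim x (toV (y t)) ∈ W} =
        ⋃ t : Fin r, {x : α → N | Sum.elim x (toV (y t)) ∈ W} := by
      ext x; simp
    rw [this]
    exact definable_iUnion_of_finite (fun t => hfib _ (htoV _))
  · intro x hx
    exact hy ⟨x, hx⟩

/-- Both VC bounds at once, with a sample size. -/
theorem exists_bounds (hNIP : NIPDef L N) {A : Set N} {α β : Type} [Finite α] [Finite β]
    (W : Set ((α ⊕ β) → N)) (hW : A.Definable L W) :
    ∃ d r : ℕ, 0 < r ∧
      ((∑ k ∈ Finset.range (d + 1), (2 * r).choose k : ℕ) : ℝ) < (3 / 2 : ℝ) ^ r ∧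
      NShat (fun (x : α → N) (y : β → N) => Sum.elim x y ∈ W) (d + 1) ∧
      NShat (fun (y : β → N) (x : α → N) => Sum.elim x y ∈ W) (d + 1) := by
  obtain ⟨n1, hn1⟩ := hNIP A α β W hW
  obtain ⟨n2, hn2⟩ := hNIP A β α ((fun g => g ∘ Sum.swap) ⁻¹' W) (hW.preimage_comp Sum.swap)
  obtain ⟨r, hr0, hr⟩ := exists_sampleSize (max n1 n2)
  refine ⟨max n1 n2, r, hr0, hr, hn1.mono (by omega), ?_⟩
  have h2 : NShat (fun (y : β → N) (x : α → N) => Sum.elim x y ∈ W) n2 := by
    intro f hf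
    refine hn2 f (fun η => ?_)
    obtain ⟨x, hx⟩ := hf η
    refine ⟨x, fun t => ?_⟩
    rw [← hx t]
    have : (Sum.elim (f t) x ∘ Sum.swap : α ⊕ β → N) = Sum.elim x (f t) := by
      funext z
      rcases z with z | z <;> rfl
    change (Sum.elim (f t) x ∘ Sum.swap) ∈ W ↔ Sum.elim x (f t) ∈ W
    rw [this]
  exact h2.mono (by omega)

theorem stepTwo {M C : Set N} (hsat : SatOver L (M ∪ C)) (hNIP : NIPDef L N)
    {α β : Type} [Finite α] [Finite β] (D : Set (α → N))
    (hDinv : ∀ x y : α → N, (∀ S, M.Definable L S → (x ∈ S ↔ y ∈ S)) → (x ∈ D ↔ y ∈ D))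
    (W : Set ((α ⊕ β) → N)) (hW : (M ∪ C).Definable L W) (hUA : UA L M C D W) :
    ∃ (β' : Type) (_ : Finite β') (ψ : Set ((α ⊕ β') → N)), (M ∪ C).Definable L ψ ∧
      ∀ F : Set (α → N), F.Finite → ∃ m : β' → N, (∀ i, m i ∈ M) ∧
        {x | Sum.elim x m ∈ ψ} ∈ EE L M (M ∪ C) (F ∩ D) ∧
        {x | Sum.elim x m ∉ ψ} ∈ EE L M (M ∪ C) (F \ D) := by
  classical
  obtain ⟨d1, r1, hr10, hr1, h11, h12⟩ := exists_bounds L hNIP W hW
  -- the union of `r1` fibres
  set W2 : Set ((α ⊕ (Fin r1 × β)) → N) :=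
    ⋃ t : Fin r1, (fun z => z ∘ (Sum.map id (fun b => (t, b)))) ⁻¹' W with hW2
  have hW2def : (M ∪ C).Definable L W2 :=
    definable_iUnion_of_finite (fun t => hW.preimage_comp _)
  have hW2mem : ∀ (x : α → N) (w : Fin r1 × β → N),
      Sum.elim x w ∈ W2 ↔ ∃ t, Sum.elim x (fun b => w (t, b)) ∈ W := by
    intro x w
    have hc : ∀ t, (Sum.elim x w ∘ (Sum.map id (fun b => (t, b))) : α ⊕ β → N) =
        Sum.elim x (fun b => w (t, b)) := by
      intro t
      funext z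
      rcases z with z | z <;> rfl
    simp only [hW2, mem_iUnion, Set.mem_preimage, hc]
  obtain ⟨d2, r2, hr20, hr2, h21, h22⟩ := exists_bounds L hNIP W2ᶜ hW2def.compl
  set ψ : Set ((α ⊕ (Fin r2 × (Fin r1 × β))) → N) :=
    ⋂ t : Fin r2, (fun z => z ∘ (Sum.map id (fun b => (t, b)))) ⁻¹' W2 with hψ
  have hψdef : (M ∪ C).Definable L ψ :=
    definable_iInter_of_finite (fun t => hW2def.preimage_comp _)
  have hψmem : ∀ (x : α → N) (w : Fin r2 × (Fin r1 × β) → N),
      Sum.elim x w ∈ ψ ↔ ∀ t, Sum.elim x (fun b => w (t, b)) ∈ W2 := by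
    intro x w
    have hc : ∀ t, (Sum.elim x w ∘ (Sum.map id (fun b => (t, b))) : α ⊕ (Fin r1 × β) → N) =
        Sum.elim x (fun b => w (t, b)) := by
      intro t
      funext z
      rcases z with z | z <;> rfl
    simp only [hψ, mem_iInter, Set.mem_preimage, hc]
  refine ⟨_, inferInstance, ψ, hψdef, ?_⟩
  intro F hF
  -- good points over `F ∩ D` are in `D`, good points over `F \ D` are not
  have hgoodD : ∀ x, Good L M (M ∪ C) (F ∩ D) x → x ∈ D := by
    rintro x ⟨-, f, hf, hxf⟩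
    exact (hDinv x f hxf).2 hf.2
  have hgoodN : ∀ x, Good L M (M ∪ C) (F \ D) x → x ∉ D := by
    rintro x ⟨-, f, hf, hxf⟩ hx
    exact hf.2 ((hDinv x f hxf).1 hx)
  -- stage (i)
  have stage1 : ∀ B : Set (α → N), B.Finite → (∀ x ∈ B, Good L M (M ∪ C) (F \ D) x) →
      ∃ w : Fin r1 × β → N, (∀ i, w i ∈ M) ∧
        {x | Sum.elim x w ∈ W2} ∈ EE L M (M ∪ C) (F ∩ D) ∧ ∀ x ∈ B, Sum.elim x w ∉ W2 := by
    intro B hB hBg
    obtain ⟨v, hv, hvE⟩ := stage L (subset_union_left : M ⊆ M ∪ C) hsat W hW d1 r1 hr10 hr1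
      h11 h12 (F ∩ D) (hF.inter_of_left D)
      {v : β → N | (∀ i, v i ∈ M) ∧ ∀ x ∈ B, Sum.elim x v ∉ W}
      (fun v hv i => Or.inl (hv.1 i)) (by
        intro B' hB' hB'g
        obtain ⟨v, hvM, hv⟩ := hUA (B ∪ B') (hB.union hB') (by
          rintro x (hx | hx)
          · exact (hBg x hx).1
          · exact (hB'g x hx).1)
        refine ⟨v, ⟨hvM, fun x hx hxW => ?_⟩, fun x hx => ?_⟩
        · exact hgoodN x (hBg x hx) ((hv x (Or.inl hx)).1 hxW)
        · exact (hv x (Or.inr hx)).2 (hgoodD x (hB'g x hx)))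
    refine ⟨fun z => v z.1 z.2, fun z => (hv z.1).1 z.2, ?_, ?_⟩
    · convert hvE using 1
      ext x
      exact hW2mem x _
    · intro x hx hxW
      obtain ⟨t, ht⟩ := (hW2mem x _).1 hxW
      exact (hv t).2 x hx ht
  -- stage (ii)
  obtain ⟨w, hw, hwE⟩ := stage L (subset_union_left : M ⊆ M ∪ C) hsat W2ᶜ hW2def.compl d2 r2
    hr20 hr2 h21 h22 (F \ D) (hF.sdiff)
    {w : Fin r1 × β → N | (∀ i, w i ∈ M) ∧ {x | Sum.elim x w ∈ W2} ∈ EE L M (M ∪ C) (F ∩ D)}
    (fun v hv i => Or.inl (hv.1 i)) (by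
      intro B hB hBg
      obtain ⟨w, hwM, hw1, hw2⟩ := stage1 B hB hBg
      exact ⟨w, ⟨hwM, hw1⟩, hw2⟩)
  refine ⟨fun z => w z.1 z.2, fun z => (hw z.1).1 z.2, ?_, ?_⟩
  · have : {x : α → N | Sum.elim x (fun z : Fin r2 × (Fin r1 × β) => w z.1 z.2) ∈ ψ} =
        ⋂ t : Fin r2, {x | Sum.elim x (w t) ∈ W2} := by
      ext x
      rw [Set.mem_ofPred_eq, hψmem, mem_iInter]
      rfl
    rw [this]
    exact EE.iInter (fun t => (hw t).2)
  · convert hwE using 1
    ext x
    rw [Set.mem_ofPred_eq, hψmem]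
    simp

end MP064793
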