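import Pool.Agent.Lib.MP_064793_lc.Defs

/-! # Transfer between a model and its elementary submodels (helper for MP_064793_lc) -/

namespace MP064793

open FirstOrder FirstOrder.Language Set

universe u v w

variable {L : FirstOrder.Language.{u, v}} {U : Type w} [L.Structure U]

/-- Tarski–Vaught: elementary substructures meet all nonempty sets definable over them. -/
theorem mpoints_of_elementary (S : L.ElementarySubstructure U) : MPoints L (S : Set U) := by
  intro β _ T hT hne
  rw [definable_iff_exists_formula_sum] at hT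
  obtain ⟨φ, rfl⟩ := hT
  obtain ⟨v, hv⟩ := hne
  have h1 : (φ.iExs β).Realize (fun z : (S : Set U) => (z : U)) := by
    rw [Formula.realize_iExs]
    exact ⟨v, hv⟩
  have h2 : (φ.iExs β).Realize (fun z : (S : Set U) => (⟨z, z.2⟩ : S)) := by
    rw [← S.subtype.map_formula]
    exact h1
  rw [Formula.realize_iExs] at h2
  obtain ⟨w, hw⟩ := h2
  refine ⟨fun i => (w i : U), ?_, fun i => (w i).2⟩
  rw [← S.subtype.map_formula] at hw
  change φ.Realize _
  convert hw using 1
  funext z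
  rcases z with z | z <;> rfl

/-- A definable set of the submodel is the trace of a set definable with the same parameters. -/
theorem definable_lift (N : L.ElementarySubstructure U) {β : Type*} (A : Set N)
    (T : Set (β → N)) (hT : A.Definable L T) :
    ∃ T' : Set (β → U), (Subtype.val '' A : Set U).Definable L T' ∧
      ∀ v : β → N, v ∈ T ↔ (fun i => (v i : U)) ∈ T' := by
  rw [definable_iff_exists_formula_sum] at hT
  obtain ⟨φ, rfl⟩ := hT
  refine ⟨{v | (φ.relabel (Sum.map (fun a : A => (⟨(a : N), ⟨a, a.2, rfl⟩⟩ :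
    (Subtype.val '' A : Set U))) id)).Realize (Sum.elim (↑) v)},
    definable_iff_exists_formula_sum.2 ⟨_, rfl⟩, ?_⟩
  intro v
  rw [Set.mem_ofPred_eq, Set.mem_ofPred_eq, Formula.realize_relabel, ← N.subtype.map_formula]
  refine iff_of_eq (congrArg _ ?_)
  funext z
  rcases z with z | z <;> rfl

/-- The trace of a definable set on a submodel containing the parameters is definable. -/
theorem definable_restrict (N : L.ElementarySubstructure U) {β : Type*} (A : Set U)
    (hA : A ⊆ N) (T : Set (β → U)) (hT : A.Definable L T) :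
    ({x : N | (x : U) ∈ A} : Set N).Definable L {v : β → N | (fun i => (v i : U)) ∈ T} := by
  rw [definable_iff_exists_formula_sum] at hT ⊢
  obtain ⟨φ, rfl⟩ := hT
  refine ⟨φ.relabel (Sum.map (fun a : A => (⟨⟨(a : U), hA a.2⟩, a.2⟩ :
    ({x : N | (x : U) ∈ A} : Set N))) id), ?_⟩
  ext v
  change φ.Realize _ ↔ (φ.relabel _).Realize _
  rw [Formula.realize_relabel, ← N.subtype.map_formula]
  refine iff_of_eq (congrArg _ ?_)
  funext z
  rcases z with z | z <;> rfl

/-- `M ≺ N` in terms of definable sets of `N`. -/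
theorem mpoints_of_le (M N : L.ElementarySubstructure U) (hMN : (M : Set U) ⊆ N) :
    MPoints L ({x : N | (x : U) ∈ M} : Set N) := by
  intro β _ T hT hne
  obtain ⟨T', hT', hTT'⟩ := definable_lift N _ T hT
  obtain ⟨v, hv⟩ := hne
  have hT'M : (M : Set U).Definable L T' := hT'.mono (by
    rintro _ ⟨x, hx, rfl⟩
    exact hx)
  obtain ⟨m, hm, hmM⟩ := mpoints_of_elementary M β T' hT'M ⟨_, (hTT' v).1 hv⟩
  refine ⟨fun i => ⟨m i, hMN (hmM i)⟩, ?_, fun i => hmM i⟩
  rw [hTT']
  exact hm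

/-- NIP passes to elementary substructures. -/
theorem nipDef_substructure (N : L.ElementarySubstructure U) (h : NIPDef L U) :
    NIPDef L N := by
  intro A α β _ _ S hS
  obtain ⟨S', hS', hSS'⟩ := definable_lift N A S hS
  obtain ⟨n, hn⟩ := h _ α β S' hS'
  refine ⟨n, fun f hf => hn (fun t i => (f t i : U)) (fun η => ?_)⟩
  obtain ⟨y, hy⟩ := hf η
  refine ⟨fun i => (y i : U), fun t => ?_⟩
  rw [← hy t]
  change _ ↔ Sum.elim (f t) y ∈ S
  rw [hSS']
  refine iff_of_eq (congrArg (· ∈ S') ?_)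
  funext z
  rcases z with z | z <;> rfl

/-- Every `A`-definable set is a fibre of a `∅`-definable set over a finite tuple of `A`. -/
theorem exists_fin_param {N : Type w} [L.Structure N] {A : Set N} {α : Type*}
    {S : Set (α → N)} (hS : A.Definable L S) :
    ∃ (k : ℕ) (c : Fin k → N) (χ : L.Formula (α ⊕ Fin k)), (∀ i, c i ∈ A) ∧
      ∀ x : α → N, x ∈ S ↔ χ.Realize (Sum.elim x c) := by
  rw [definable_iff_finitely_definable] at hS
  obtain ⟨A0, hA0, hS⟩ := hS
  obtain ⟨k, ⟨e⟩⟩ := Finite.exists_equiv_fin A0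
  have hr : range (fun i => ((e.symm i : A0) : N)) = (A0 : Set N) := by
    ext z
    constructor
    · rintro ⟨i, rfl⟩
      exact (e.symm i).2
    · intro hz
      exact ⟨e ⟨z, hz⟩, by simp⟩
  have hS' : ((∅ : Set N) ∪ range (fun i => ((e.symm i : A0) : N))).Definable L S := by
    rw [hr, empty_union]
    exact hS
  obtain ⟨S', hS'', h⟩ := Definable.unfiber _ hS'
  obtain ⟨χ, rfl⟩ := empty_definable_iff.1 hS''
  exact ⟨k, _, χ, fun i => hA0 (e.symm i).2, h⟩

/-- NIP for formulas gives NIP for definable relations. -/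
theorem nipDef_of_formula
    (h : ∀ (k l : ℕ) (φ : L.Formula (Fin k ⊕ Fin l)), ¬ ∀ n : ℕ,
      ∃ (x : Fin n → Fin k → U) (y : Set (Fin n) → Fin l → U), ∀ i η,
        φ.Realize (Sum.elim (x i) (y η)) ↔ i ∈ η) : NIPDef L U := by
  intro A α β _ _ S hS
  obtain ⟨m, c, χ, hc, hχ⟩ := exists_fin_param hS
  obtain ⟨k, ⟨e⟩⟩ := Finite.exists_equiv_fin α
  obtain ⟨l, ⟨e'⟩⟩ := Finite.exists_equiv_fin (β ⊕ Fin m)
  let g : (α ⊕ β) ⊕ Fin m → Fin k ⊕ Fin l :=
    Sum.elim (Sum.elim (fun a => Sum.inl (e a)) (fun b => Sum.inr (e' (Sum.inl b))))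
      (fun i => Sum.inr (e' (Sum.inr i)))
  have := h k l (χ.relabel g)
  push Not at this
  obtain ⟨n, hn⟩ := this
  refine ⟨n, fun f hf => ?_⟩
  choose y hy using hf
  obtain ⟨i, η, hiη⟩ := hn (fun t => f t ∘ e.symm) (fun η => Sum.elim (y η) c ∘ e'.symm)
  have key : (χ.relabel g).Realize (Sum.elim (f i ∘ e.symm) (Sum.elim (y η) c ∘ e'.symm)) ↔
      Sum.elim (f i) (y η) ∈ S := by
    rw [hχ, Formula.realize_relabel]
    refine iff_of_eq (congrArg _ ?_)
    funext z
    rcases z with (z | z) | z <;> simp [g]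
  have := hy η i
  tauto

/-- Saturation for formulas gives compactness for families of definable sets. -/
theorem satOver_of_formula {N : Type w} [L.Structure N] {A : Set N}
    (h : ∀ (n : ℕ) (p : Set (L[[A]].Formula (Fin n))),
      (∀ p₀ : Finset (L[[A]].Formula (Fin n)), (p₀ : Set _) ⊆ p →
        ∃ x : Fin n → N, ∀ ψ ∈ p₀, ψ.Realize x) →
      ∃ x : Fin n → N, ∀ ψ ∈ p, ψ.Realize x) : SatOver L A := by
  classical
  intro β _ ι F hF hfin
  obtain ⟨n, ⟨e⟩⟩ := Finite.exists_equiv_fin β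
  have h1 : ∀ i, ∃ φ : L[[A]].Formula (Fin n), ∀ x : Fin n → N,
      φ.Realize x ↔ x ∘ e ∈ F i := by
    intro i
    obtain ⟨φ, hφ⟩ := (hF i).preimage_comp e
    exact ⟨φ, fun x => (congrArg (x ∈ ·) hφ).symm.to_iff⟩
  choose φ hφ using h1
  obtain ⟨x, hx⟩ := h n (range φ) (by
    intro p₀ hp₀
    have : ∀ ψ : p₀, ∃ i, φ i = ψ := fun ψ => hp₀ ψ.2
    choose j hj using this
    obtain ⟨y, hy⟩ := hfin (Finset.univ.image j)
    refine ⟨y ∘ e.symm, fun ψ hψ => ?_⟩
    have h3 : (φ (j ⟨ψ, hψ⟩)).Realize (y ∘ e.symm) := by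
      rw [hφ]
      have := mem_iInter₂.1 hy (j ⟨ψ, hψ⟩) (Finset.mem_image_of_mem _ (Finset.mem_univ _))
      convert this using 1
      funext i
      simp
    rwa [hj ⟨ψ, hψ⟩] at h3)
  exact ⟨x ∘ e, mem_iInter.2 (fun i => (hφ i x).1 (hx _ ⟨i, rfl⟩))⟩

end MP064793
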